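import Pool.Agent.H571Z.Cor

set_option autoImplicit false

namespace Pool.Agent.Results.MP_07046b_lc.DFTNotRigid

/-- For every `δ > 0` there are `η > 0` and `N₀` such that for every `N ≥ N₀` and every primitive
`N`-th root of unity `ω ∈ ℂ`, the DFT matrix `(ω ^ (i j))` differs from a matrix with entries in
the cyclotomic field `ℚ(ω)`, of rank at most `N ^ (1 - η)` over that field, in at most `N ^ δ`
entries of each row and of each column. -/
theorem result (δ : ℝ) (hδ : 0 < δ) : ∃ η : ℝ, 0 < η ∧ ∃ N₀ : ℕ,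
    ∀ (N : ℕ) (ω : ℂ), N₀ ≤ N → IsPrimitiveRoot ω N →
      ∃ A : Matrix (Fin N) (Fin N) (IntermediateField.adjoin ℚ {ω}),
        (A.rank : ℝ) ≤ (N : ℝ) ^ (1 - η) ∧
        (∀ i : Fin N, (({j : Fin N | (A i j : ℂ) ≠ ω ^ ((i : ℕ) * (j : ℕ))}.ncard : ℕ) : ℝ) ≤
          (N : ℝ) ^ δ) ∧
        (∀ j : Fin N, (({i : Fin N | (A i j : ℂ) ≠ ω ^ ((i : ℕ) * (j : ℕ))}.ncard : ℕ) : ℝ) ≤
          (N : ℝ) ^ δ) := by
  obtain ⟨η, hη, N₀, h⟩ := Pool.Agent.H571Z.fourier_nr.{0} hδ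
  refine ⟨η, hη, max N₀ 1, fun N ω hN hω => ?_⟩
  have h0 : ω ≠ 0 := hω.ne_zero (by have := (le_max_right _ _).trans hN; omega)
  obtain ⟨A, h1, h2, h3⟩ := (h (IntermediateField.adjoin ℚ {ω}) N
    ⟨ω, IntermediateField.mem_adjoin_simple_self ℚ ω⟩ (fun h' => h0 (congrArg Subtype.val h'))
    ((le_max_left _ _).trans hN)).near
  refine ⟨A, h1, fun i => ?_, fun j => ?_⟩
  · simpa [Subtype.ext_iff] using h2 i
  · simpa [Subtype.ext_iff] using h3 j

end Pool.Agent.Results.MP_07046b_lc.DFTNotRigid
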